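import Pool.Agent.H58.FN.Targets

/-!
MP_6a7a6f_gt, board fnc_modules, row CLQ: the points with a weight larger than `δ` somewhere on a
small set are pairwise close.
-/

open Topology

namespace Pool.Agent.H1.FN

open Pool.Agent.H59 Pool.Agent.H48.FR Pool.Agent.H58.FL Pool.Agent.H30.FA Pool.Agent.H58.FM
  Pool.Agent.H58.FN

/-- CLQ: the points with a weight larger than `δ` somewhere on a small set are pairwise close. -/
theorem pf_CLQ : Pool.Agent.H58.FN.T_CLQ := by
  intro E J X _ _ _ κ δ x t σ S hS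
  have hδ := σ.d_pos
  have h1 : ∀ f ∈ S, ∀ g ∈ S, ∀ j, t f j ≤ t g j + δ := by
    intro f hf g hg j
    have e1 := hS f hf g hg
    have e2 : |t f j - t g j| ≤ ∑ j, |t f j - t g j| :=
      Finset.single_le_sum (f := fun j => |t f j - t g j|) (fun _ _ => abs_nonneg _)
        (Finset.mem_univ j)
    have e3 := le_abs_self (t f j - t g j)
    linarith
  have h2 : ∀ f ∈ S, ∀ g ∈ S, ∀ i j, δ < t f i → δ < t g j → Adj κ (x i) (x j) ∧
      inner ℂ (x i) (x j) ≠ 0 := by
    intro f hf g hg i j hi hj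
    have e1 := h1 g hg f hf j
    have e2 : κ ≤ ‖inner ℂ (x i) (x j)‖ ^ 2 := σ.adj f i j (by linarith) (by linarith)
    refine ⟨e2, fun h0 => ?_⟩
    rw [h0, norm_zero] at e2
    have := σ.k_pos
    norm_num at e2
    linarith
  refine ⟨h1, h2, ?_, ?_, ?_, ?_⟩
  · obtain ⟨c, hc⟩ := σ.lab {y | ∃ j, x j = y ∧ ∃ f ∈ S, δ < t f j} (by
      rintro y ⟨j, rfl, -⟩
      exact σ.norm_x j) (by
      rintro y ⟨i, rfl, f, hf, hi⟩ z ⟨j, rfl, g, hg, hj⟩
      exact (h2 f hf g hg i j hi hj).1)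
    exact ⟨fun j => c (x j), fun i j k l hi hj hk hl =>
      hc (x i) ⟨i, rfl, hi⟩ (x j) ⟨j, rfl, hj⟩ (x k) ⟨k, rfl, hk⟩ (x l) ⟨l, rfl, hl⟩⟩
  · by_cases h : ∀ u ∈ S, ¬ HM x (24 * δ) (t u)
    · exact Or.inl ⟨hS, h⟩
    · push Not at h
      obtain ⟨u, hu, q, hq, hw⟩ := h
      refine Or.inr ⟨hS, fun f hf => ⟨q, hq, fun i => ?_⟩⟩
      have e1 := h1 u hu f hf (q i)
      have e2 := hw i
      linarith
  · by_cases h : ∀ u ∈ S, ¬ HP x (12 * δ) (t u)
    · exact Or.inl h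
    · push Not at h
      obtain ⟨u, hu, q, hq, hw⟩ := h
      refine Or.inr fun f hf => ⟨q, hq, fun i => ?_⟩
      have e1 := h1 u hu f hf (q i)
      have e2 := hw i
      linarith
  · intro hK f hf g hg h hh k hk
    by_contra hne
    refine hK.2 f hf ⟨![σ.v f, σ.v g, σ.v h, σ.v k], hne, fun i => ?_⟩
    have e0 := σ.d_small f
    have e1 := σ.d_small g
    have e2 := σ.d_small h
    have e3 := σ.d_small k
    have d1 := h1 g hg f hf (σ.v g)
    have d2 := h1 h hh f hf (σ.v h)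
    have d3 := h1 k hk f hf (σ.v k)
    fin_cases i
    · show 24 * δ < t f (σ.v f)
      linarith
    · show 24 * δ < t f (σ.v g)
      linarith
    · show 24 * δ < t f (σ.v h)
      linarith
    · show 24 * δ < t f (σ.v k)
      linarith

end Pool.Agent.H1.FN
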