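import Pool.Agent.H58.FN.Targets

/-!
MP_6a7a6f_gt, board fnc_modules, row PRM: the prism formula.
-/

open Topology

namespace Pool.Agent.H1.FN

open Pool.Agent.H59 Pool.Agent.H48.FR Pool.Agent.H58.FL Pool.Agent.H30.FA Pool.Agent.H58.FM
  Pool.Agent.H58.FN

noncomputable section

section

variable {E J : Type} [NormedAddCommGroup E] [InnerProductSpace ℂ E]

/-- the mean phase of three families of points -/
private def prm_T {p q r : ℕ} (x : J → E) (P : Fin p → J) (Q : Fin q → J) (R : Fin r → J) : ℝ :=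
  (∑ i, ∑ j, ∑ k, pa (x (P i)) (x (Q j)) (x (R k))) / ((p : ℝ) * q * r)

private theorem prm_mn (a b c d : E) : mn a b c d = pa b c d - pa a c d + pa a b d - pa a b c := by
  unfold mn pa
  ring

private theorem prm_MM {p q r s : ℕ} (hp : 0 < p) (hq : 0 < q) (hr : 0 < r) (hs : 0 < s)
    (x : J → E) (P : Fin p → J) (Q : Fin q → J) (R : Fin r → J) (S : Fin s → J) :
    MM x P Q R S = prm_T x Q R S - prm_T x P R S + prm_T x P Q S - prm_T x P Q R := by
  have hp' : (p : ℝ) ≠ 0 := by exact_mod_cast hp.ne'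
  have hq' : (q : ℝ) ≠ 0 := by exact_mod_cast hq.ne'
  have hr' : (r : ℝ) ≠ 0 := by exact_mod_cast hr.ne'
  have hs' : (s : ℝ) ≠ 0 := by exact_mod_cast hs.ne'
  have h1 : ∑ _i : Fin p, ∑ j, ∑ k, ∑ l, pa (x (Q j)) (x (R k)) (x (S l)) =
      p * ∑ j, ∑ k, ∑ l, pa (x (Q j)) (x (R k)) (x (S l)) := by
    rw [Finset.sum_const, Finset.card_univ, Fintype.card_fin, nsmul_eq_mul]
  have h2 : ∑ i, ∑ _j : Fin q, ∑ k, ∑ l, pa (x (P i)) (x (R k)) (x (S l)) =
      q * ∑ i, ∑ k, ∑ l, pa (x (P i)) (x (R k)) (x (S l)) := by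
    rw [Finset.mul_sum]
    refine Finset.sum_congr rfl fun i _ => ?_
    rw [Finset.sum_const, Finset.card_univ, Fintype.card_fin, nsmul_eq_mul]
  have h3 : ∑ i, ∑ j, ∑ _k : Fin r, ∑ l, pa (x (P i)) (x (Q j)) (x (S l)) =
      r * ∑ i, ∑ j, ∑ l, pa (x (P i)) (x (Q j)) (x (S l)) := by
    rw [Finset.mul_sum]
    refine Finset.sum_congr rfl fun i _ => ?_
    rw [Finset.mul_sum]
    refine Finset.sum_congr rfl fun j _ => ?_
    rw [Finset.sum_const, Finset.card_univ, Fintype.card_fin, nsmul_eq_mul]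
  have h4 : ∑ i, ∑ j, ∑ k, ∑ _l : Fin s, pa (x (P i)) (x (Q j)) (x (R k)) =
      s * ∑ i, ∑ j, ∑ k, pa (x (P i)) (x (Q j)) (x (R k)) := by
    rw [Finset.mul_sum]
    refine Finset.sum_congr rfl fun i _ => ?_
    rw [Finset.mul_sum]
    refine Finset.sum_congr rfl fun j _ => ?_
    rw [Finset.mul_sum]
    refine Finset.sum_congr rfl fun k _ => ?_
    rw [Finset.sum_const, Finset.card_univ, Fintype.card_fin, nsmul_eq_mul]
  have h0 : ∑ i, ∑ j, ∑ k, ∑ l, mn (x (P i)) (x (Q j)) (x (R k)) (x (S l)) =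
      p * (∑ j, ∑ k, ∑ l, pa (x (Q j)) (x (R k)) (x (S l))) -
      q * (∑ i, ∑ k, ∑ l, pa (x (P i)) (x (R k)) (x (S l))) +
      r * (∑ i, ∑ j, ∑ l, pa (x (P i)) (x (Q j)) (x (S l))) -
      s * ∑ i, ∑ j, ∑ k, pa (x (P i)) (x (Q j)) (x (R k)) := by
    rw [← h1, ← h2, ← h3, ← h4]
    simp only [prm_mn, Finset.sum_add_distrib, Finset.sum_sub_distrib]
  unfold MM prm_T
  rw [h0]
  field_simp

private theorem prm_UU {X : Type} {a : ℕ} (x : J → E) (A : X → Fin a → J) (f g h : X) :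
    UU x A f g h = prm_T x (A f) (A g) (A h) := by
  unfold UU prm_T
  congr 1
  ring

private theorem prm_EE {X : Type} {a b : ℕ} (x : J → E) (A : X → Fin a → J) (B : X → Fin b → J)
    (f g : X) : EE x A B f g = prm_T x (A f) (A g) (B g) - prm_T x (A f) (B f) (B g) := by
  unfold EE prm_T
  congr 1
  · congr 1
    ring
  · congr 1
    ring

end

/-- PRM: the prism formula. -/
theorem pf_PRM : Pool.Agent.H58.FN.T_PRM := by
  intro E J X _ _ a b x A B ha hb f g h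
  rw [prm_MM ha ha ha hb, prm_MM ha ha hb hb, prm_MM ha hb hb hb]
  unfold d1
  rw [prm_UU, prm_UU, prm_EE, prm_EE, prm_EE]
  ring

end

end Pool.Agent.H1.FN
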